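import Pool.Agent.W363.JQ.Stm

set_option autoImplicit false
open Filter Topology Set Metric

namespace Pool.Agent.W589.JQ

open Pool.Agent.W363.JQ

/-- compactness: a set whose closure stays in the domain has image in a smaller disc. -/
theorem small (W E : Set ℂ) (ψ : ℂ → ℂ) (hψ : ContinuousOn ψ W)
    (hm : ∀ z ∈ W, ‖ψ z‖ < 1) (hb : Bornology.IsBounded E) (hE : closure E ⊆ W) :
    ∃ ρ : ℝ, 1 / 2 ≤ ρ ∧ ρ < 1 ∧ ∀ z ∈ E, ‖ψ z‖ ≤ ρ := by
  have hc : IsCompact (closure E) := hb.isCompact_closure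
  rcases E.eq_empty_or_nonempty with h | h
  · exact ⟨1 / 2, le_rfl, by norm_num, by rw [h]; intro z hz; exact absurd hz (Set.notMem_empty z)⟩
  · obtain ⟨z₀, hz₀, hmax⟩ := hc.exists_isMaxOn (h.mono subset_closure)
      ((hψ.mono hE).norm)
    refine ⟨max (1 / 2) ‖ψ z₀‖, le_max_left _ _, max_lt (by norm_num) (hm z₀ (hE hz₀)), ?_⟩
    intro z hz
    exact (hmax (subset_closure hz)).trans (le_max_right _ _)

theorem bott (h1 : S_rmt) (h2 : S_domO) (h3 : S_blaschke) : S_bott := by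
  intro f hB hJ hint
  obtain ⟨a, ha⟩ := hint
  have haK : a ∈ KK f := interior_subset ha
  obtain ⟨hO, hOc, hOb, hOcc⟩ := h2 f hB hJ a ha
  have h0 : (0 : ℂ) ∈ Om f a := Or.inl rfl
  obtain ⟨ψ, χ, hψ, hχ, hψ0, hmψ, hmχ⟩ := h1 (Om f a) 0 hO hOc hOb hOcc h0
  have hχ0 : χ 0 = 0 := by
    have := (hmψ 0 h0).2
    rwa [hψ0] at this
  have hOm : ∀ ζ : ℂ, ζ ≠ 0 → (ζ ∈ Om f a ↔ a + ζ⁻¹ ∉ KK f) := by
    intro ζ hζ
    constructor
    · rintro (h | h)
      · exact absurd h hζ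
      · exact h
    · exact fun h => Or.inr h
  have hballO : ∀ w ∈ ball (0 : ℂ) 1, χ w ∈ Om f a := fun w hw => (hmχ w hw).1
  have h0b : (0 : ℂ) ∈ ball (0 : ℂ) 1 := mem_ball_self one_pos
  -- the polynomial P
  obtain ⟨d, hd⟩ : ∃ d : ℕ, d = f.natDegree := ⟨_, rfl⟩
  have hd2 : 2 ≤ d := hd ▸ hB.deg
  obtain ⟨g, hg⟩ : ∃ g : Polynomial ℂ, g = f.comp (Polynomial.X + Polynomial.C a) -
    Polynomial.C a := ⟨_, rfl⟩
  have hgd : g.natDegree = d := by
    rw [hg, Polynomial.natDegree_sub_C, Polynomial.natDegree_comp, Polynomial.natDegree_X_add_C,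
      mul_one, hd]
  have hg0 : g ≠ 0 := by
    intro h
    rw [h, Polynomial.natDegree_zero] at hgd
    omega
  have hge : ∀ u, g.eval u = f.eval (a + u) - a := by
    intro u
    rw [hg]
    simp [Polynomial.eval_comp, add_comm]
  have hP0 : g.reverse.eval 0 ≠ 0 := by
    rw [← Polynomial.coeff_zero_eq_eval_zero, Polynomial.coeff_zero_reverse]
    exact Polynomial.leadingCoeff_ne_zero.2 hg0
  have hP : ∀ ζ : ℂ, ζ ≠ 0 → g.reverse.eval ζ = ζ ^ d * (f.eval (a + ζ⁻¹) - a) := by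
    intro ζ hζ
    let _ : Invertible ζ⁻¹ := invertibleOfNonzero (inv_ne_zero hζ)
    have h := Polynomial.eval₂_reverse_mul_pow (RingHom.id ℂ) ζ⁻¹ g
    rw [invOf_eq_inv, inv_inv, hgd] at h
    have h' : g.reverse.eval ζ * ζ⁻¹ ^ d = g.eval ζ⁻¹ := h
    rw [hge] at h'
    rw [← h', inv_pow]
    field_simp
  have hPne : ∀ ζ ∈ Om f a, g.reverse.eval ζ ≠ 0 := by
    intro ζ hζ
    by_cases h : ζ = 0
    · rw [h]; exact hP0
    · rw [hP ζ h]
      refine mul_ne_zero (pow_ne_zero _ h) ?_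
      intro h'
      have h4 : f.eval (a + ζ⁻¹) = a := sub_eq_zero.1 h'
      have h5 : a + ζ⁻¹ ∉ KK f := (hOm ζ h).1 hζ
      apply h5
      rw [← hB.invK, h4]
      exact haK
  -- fh
  obtain ⟨fh, hfh⟩ : ∃ fh : ℂ → ℂ, ∀ ζ, fh ζ = ζ ^ d / g.reverse.eval ζ :=
    ⟨fun ζ => ζ ^ d / g.reverse.eval ζ, fun _ => rfl⟩
  have hfh0 : fh 0 = 0 := by
    rw [hfh, zero_pow (by omega), zero_div]
  have hfhinv : ∀ ζ ∈ Om f a, ζ ≠ 0 → (fh ζ)⁻¹ = f.eval (a + ζ⁻¹) - a := by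
    intro ζ hζ h
    have h6 := hPne ζ hζ
    rw [hfh, inv_div, hP ζ h]
    field_simp
  have hfhne : ∀ ζ ∈ Om f a, ζ ≠ 0 → fh ζ ≠ 0 := by
    intro ζ hζ h
    rw [hfh]
    exact div_ne_zero (pow_ne_zero _ h) (hPne ζ hζ)
  have hfhO : ∀ ζ ∈ Om f a, fh ζ ∈ Om f a := by
    intro ζ hζ
    by_cases h : ζ = 0
    · rw [h, hfh0]; exact h0
    · rw [hOm _ (hfhne ζ hζ h), hfhinv ζ hζ h, add_sub_cancel, hB.invK]
      exact (hOm ζ h).1 hζ
  have hfhd : DifferentiableOn ℂ fh (Om f a) := by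
    have : fh = fun ζ => ζ ^ d / g.reverse.eval ζ := funext hfh
    rw [this]
    exact (differentiable_id.pow d).differentiableOn.div
      g.reverse.differentiable.differentiableOn hPne
  -- slopes
  have hON : Om f a ∈ 𝓝 (0 : ℂ) := hO.mem_nhds h0
  have hDN : ball (0 : ℂ) 1 ∈ 𝓝 (0 : ℂ) := ball_mem_nhds _ one_pos
  have hχd : HasDerivAt χ (deriv χ 0) 0 := (hχ.differentiableAt hDN).hasDerivAt
  have hψd : HasDerivAt ψ (deriv ψ 0) 0 := (hψ.differentiableAt hON).hasDerivAt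
  have hprod : deriv ψ 0 * deriv χ 0 = 1 := by
    have h6 : HasDerivAt (ψ ∘ χ) (deriv ψ 0 * deriv χ 0) 0 := by
      have h7 : HasDerivAt ψ (deriv ψ 0) (χ 0) := by rw [hχ0]; exact hψd
      exact h7.comp (0 : ℂ) hχd
    have h8 : (ψ ∘ χ) =ᶠ[𝓝 0] fun w => w := by
      filter_upwards [hDN] with w hw
      exact (hmχ w hw).2
    have h9 : HasDerivAt (ψ ∘ χ) 1 0 := (hasDerivAt_id' (0 : ℂ)).congr_of_eventuallyEq h8
    exact h6.unique h9
  have hχ' : deriv χ 0 ≠ 0 := right_ne_zero_of_mul_eq_one hprod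
  have hψ' : deriv ψ 0 ≠ 0 := left_ne_zero_of_mul_eq_one hprod
  obtain ⟨a1, ha1⟩ : ∃ a1, a1 = dslope χ 0 := ⟨_, rfl⟩
  obtain ⟨b1, hb1⟩ : ∃ b1, b1 = dslope ψ 0 := ⟨_, rfl⟩
  have ha1d : DifferentiableOn ℂ a1 (ball 0 1) := by
    rw [ha1]; exact (Complex.differentiableOn_dslope hDN).2 hχ
  have hb1d : DifferentiableOn ℂ b1 (Om f a) := by
    rw [hb1]; exact (Complex.differentiableOn_dslope hON).2 hψ
  have ha1e : ∀ w, χ w = w * a1 w := by
    intro w
    have := sub_smul_dslope χ 0 w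
    rw [hχ0, sub_zero, sub_zero, smul_eq_mul] at this
    rw [ha1, this]
  have hb1e : ∀ ζ, ψ ζ = ζ * b1 ζ := by
    intro ζ
    have := sub_smul_dslope ψ 0 ζ
    rw [hψ0, sub_zero, sub_zero, smul_eq_mul] at this
    rw [hb1, this]
  have hχne : ∀ w ∈ ball (0 : ℂ) 1, w ≠ 0 → χ w ≠ 0 := by
    intro w hw h h'
    apply h
    rw [← (hmχ w hw).2, h', hψ0]
  have hψne : ∀ ζ ∈ Om f a, ζ ≠ 0 → ψ ζ ≠ 0 := by
    intro ζ hζ h h'
    apply h
    rw [← (hmψ ζ hζ).2, h', hχ0]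
  have ha1ne : ∀ w ∈ ball (0 : ℂ) 1, a1 w ≠ 0 := by
    intro w hw
    by_cases h : w = 0
    · rw [h, ha1, dslope_same]; exact hχ'
    · intro h'
      have := ha1e w
      rw [h', mul_zero] at this
      exact hχne w hw h this
  have hb1ne : ∀ ζ ∈ Om f a, b1 ζ ≠ 0 := by
    intro ζ hζ
    by_cases h : ζ = 0
    · rw [h, hb1, dslope_same]; exact hψ'
    · intro h'
      have := hb1e ζ
      rw [h', mul_zero] at this
      exact hψne ζ hζ h this
  -- H
  obtain ⟨H, hH⟩ : ∃ H : ℂ → ℂ, ∀ w, H w = b1 (fh (χ w)) * a1 w ^ d / g.reverse.eval (χ w) :=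
    ⟨fun w => b1 (fh (χ w)) * a1 w ^ d / g.reverse.eval (χ w), fun _ => rfl⟩
  have hmapχ : MapsTo χ (ball 0 1) (Om f a) := hballO
  have hmapf : MapsTo fh (Om f a) (Om f a) := hfhO
  have hHd : DifferentiableOn ℂ H (ball 0 1) := by
    have : H = fun w => b1 (fh (χ w)) * a1 w ^ d / g.reverse.eval (χ w) := funext hH
    rw [this]
    refine DifferentiableOn.div (DifferentiableOn.mul ?_ (ha1d.pow d)) ?_ ?_
    · exact (hb1d.comp hfhd hmapf).comp hχ hmapχ
    · exact (g.reverse.differentiable.differentiableOn (s := Om f a)).comp hχ hmapχ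
    · exact fun w hw => hPne _ (hballO w hw)
  have hHne : ∀ w ∈ ball (0 : ℂ) 1, H w ≠ 0 := by
    intro w hw
    rw [hH]
    exact div_ne_zero (mul_ne_zero (hb1ne _ (hfhO _ (hballO w hw))) (pow_ne_zero _ (ha1ne w hw)))
      (hPne _ (hballO w hw))
  have hHe : ∀ w ∈ ball (0 : ℂ) 1, w ^ d * H w = ψ (fh (χ w)) := by
    intro w hw
    rw [hb1e (fh (χ w)), hH]
    have : fh (χ w) = w ^ d * a1 w ^ d / g.reverse.eval (χ w) := by
      rw [hfh, ← mul_pow, ← ha1e]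
    rw [this]
    ring
  -- properness
  have hψn : ∀ z ∈ Om f a, ‖ψ z‖ < 1 := fun z hz => mem_ball_zero_iff.1 (hmψ z hz).1
  have hKc : IsClosed (KK f) := hB.cpt.isClosed
  have hprop : ∀ ε : ℝ, 0 < ε → ∃ ρ : ℝ, ρ < 1 ∧ ∀ w ∈ ball (0 : ℂ) 1, ρ < ‖w‖ →
      1 - ε < ‖w ^ d * H w‖ := by
    intro ε hε
    obtain ⟨ρ, -, hρ, hρE⟩ := small (Om f a) {ζ | ζ ∈ Om f a ∧ ‖ψ (fh ζ)‖ ≤ 1 - ε} ψ
      hψ.continuousOn hψn (hOb.subset (fun z hz => hz.1)) (by
        intro ζ hζ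
        by_contra hcon
        obtain ⟨z, hz, hzl⟩ := mem_closure_iff_seq_limit.1 hζ
        have hζ0 : ζ ≠ 0 := fun h => hcon (h ▸ h0)
        have hx : a + ζ⁻¹ ∈ KK f := by
          by_contra h'
          exact hcon ((hOm ζ hζ0).2 h')
        -- the compact set C
        have hC : IsCompact (χ '' closedBall 0 (1 - ε)) :=
          (isCompact_closedBall _ _).image_of_continuousOn
            (hχ.continuousOn.mono (closedBall_subset_ball (by linarith)))
        have hzC : ∀ n, fh (z n) ∈ χ '' closedBall 0 (1 - ε) := by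
          intro n
          refine ⟨ψ (fh (z n)), mem_closedBall_zero_iff.2 (hz n).2, ?_⟩
          exact (hmψ _ (hfhO _ (hz n).1)).2
        obtain ⟨η, hη, φ, hφ, hφl⟩ := hC.tendsto_subseq hzC
        have hηO : η ∈ Om f a := by
          obtain ⟨w, hw, rfl⟩ := hη
          exact hballO w (closedBall_subset_ball (by linarith) hw)
        have hzφ : Tendsto (fun n => z (φ n)) atTop (𝓝 ζ) := hzl.comp hφ.tendsto_atTop
        have hne : ∀ᶠ n in atTop, z (φ n) ≠ 0 := hzφ.eventually_ne hζ0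
        have hl2 : Tendsto (fun n => f.eval (a + (z (φ n))⁻¹) - a) atTop
            (𝓝 (f.eval (a + ζ⁻¹) - a)) := by
          have h6 : Tendsto (fun n => a + (z (φ n))⁻¹) atTop (𝓝 (a + ζ⁻¹)) :=
            tendsto_const_nhds.add (hzφ.inv₀ hζ0)
          exact ((f.continuous.tendsto _).comp h6).sub tendsto_const_nhds
        have hl3 : Tendsto (fun n => fh (z (φ n)) * (f.eval (a + (z (φ n))⁻¹) - a)) atTop
            (𝓝 (η * (f.eval (a + ζ⁻¹) - a))) := hφl.mul hl2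
        have hl4 : Tendsto (fun n => fh (z (φ n)) * (f.eval (a + (z (φ n))⁻¹) - a)) atTop
            (𝓝 1) := by
          refine tendsto_const_nhds.congr' ?_
          filter_upwards [hne] with n hn
          rw [← hfhinv _ (hz (φ n)).1 hn, mul_inv_cancel₀ (hfhne _ (hz (φ n)).1 hn)]
        have h7 : η * (f.eval (a + ζ⁻¹) - a) = 1 := tendsto_nhds_unique hl3 hl4
        have hη0 : η ≠ 0 := left_ne_zero_of_mul_eq_one h7
        have h8 : η⁻¹ = f.eval (a + ζ⁻¹) - a := inv_eq_of_mul_eq_one_right h7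
        have h9 := (hOm η hη0).1 hηO
        rw [h8, add_sub_cancel, hB.invK] at h9
        exact h9 hx)
    refine ⟨ρ, hρ, fun w hw hw' => ?_⟩
    by_contra hle
    push Not at hle
    rw [hHe w hw] at hle
    have := hρE (χ w) ⟨hballO w hw, hle⟩
    rw [(hmχ w hw).2] at this
    linarith
  obtain ⟨lam, hlam, hHl⟩ := h3 d H hHd hHne (fun w hw => by
    rw [hHe w hw]; exact hψn _ (hfhO _ (hballO w hw))) hprop
  have hfun : ∀ w ∈ ball (0 : ℂ) 1, fh (χ w) = χ (lam * w ^ d) := by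
    intro w hw
    have h6 := hHe w hw
    rw [hHl w hw] at h6
    rw [mul_comm, h6]
    exact ((hmψ _ (hfhO _ (hballO w hw))).2).symm
  obtain ⟨κ, hκ⟩ := IsAlgClosed.exists_pow_nat_eq lam⁻¹ (n := d - 1) (by omega)
  have hlam0 : lam ≠ 0 := by
    intro h
    rw [h, norm_zero] at hlam
    exact zero_ne_one hlam
  have hκn : ‖κ‖ = 1 := by
    have h6 : ‖κ‖ ^ (d - 1) = 1 := by
      rw [← norm_pow, hκ, norm_inv, hlam, inv_one]
    exact (pow_eq_one_iff_of_nonneg (norm_nonneg _) (by omega)).1 h6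
  have hκ0 : κ ≠ 0 := by
    intro h
    rw [h, norm_zero] at hκn
    exact zero_ne_one hκn
  have hlk : lam * κ ^ d = κ := by
    have h6 : κ ^ d = κ ^ (d - 1) * κ := by
      rw [← pow_succ]
      congr 1
      omega
    rw [h6, hκ, ← mul_assoc, mul_inv_cancel₀ hlam0, one_mul]
  -- for |w| > 1
  have hin : ∀ w : ℂ, 1 < ‖w‖ → κ * w⁻¹ ∈ ball (0 : ℂ) 1 ∧ κ * w⁻¹ ≠ 0 := by
    intro w hw
    have hw0 : w ≠ 0 := by
      intro h
      rw [h, norm_zero] at hw
      linarith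
    refine ⟨?_, mul_ne_zero hκ0 (inv_ne_zero hw0)⟩
    rw [mem_ball_zero_iff, norm_mul, hκn, one_mul, norm_inv]
    exact inv_lt_one_of_one_lt₀ hw
  have hcont1 : Tendsto (fun w : ℂ => a * w⁻¹ + (κ * a1 (κ * w⁻¹))⁻¹) (Bornology.cobounded ℂ)
      (𝓝 (a * 0 + (κ * a1 (κ * 0))⁻¹)) := by
    have h6 : Tendsto (fun w : ℂ => w⁻¹) (Bornology.cobounded ℂ) (𝓝 0) := tendsto_inv₀_cobounded
    refine (tendsto_const_nhds.mul h6).add ?_
    have h7 : ContinuousAt a1 (κ * 0) := by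
      rw [mul_zero]
      exact (ha1d.differentiableAt hDN).continuousAt
    have h8 : Tendsto (fun w : ℂ => a1 (κ * w⁻¹)) (Bornology.cobounded ℂ) (𝓝 (a1 (κ * 0))) :=
      h7.tendsto.comp (tendsto_const_nhds.mul h6)
    refine (tendsto_const_nhds.mul h8).inv₀ (mul_ne_zero hκ0 ?_)
    rw [mul_zero]
    exact ha1ne 0 h0b
  refine ⟨fun w => a + (χ (κ * w⁻¹))⁻¹, ?_, ?_, ?_, ?_, ?_, ?_⟩
  · -- dif
    intro w hw
    have hw' : 1 < ‖w‖ := hw
    have hw0 : w ≠ 0 := by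
      intro h
      rw [h, norm_zero] at hw'
      linarith
    obtain ⟨h6, h7⟩ := hin w hw'
    have h8 : DifferentiableAt ℂ χ (κ * w⁻¹) := hχ.differentiableAt (isOpen_ball.mem_nhds h6)
    have h9 : DifferentiableAt ℂ (fun w : ℂ => κ * w⁻¹) w :=
      (differentiableAt_inv hw0).const_mul κ
    have h10 : DifferentiableAt ℂ (fun w : ℂ => χ (κ * w⁻¹)) w :=
      DifferentiableAt.comp w h8 h9
    exact (((h10.inv (hχne _ h6 h7)).const_add a)).differentiableWithinAt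
  · -- inj
    intro w hw w' hw' h
    have e1 := hin w hw
    have e2 := hin w' hw'
    have h6 : χ (κ * w⁻¹) = χ (κ * w'⁻¹) := by
      have := add_left_cancel h
      exact inv_injective this
    have h7 : κ * w⁻¹ = κ * w'⁻¹ := by
      rw [← (hmχ _ e1.1).2, h6, (hmχ _ e2.1).2]
    exact inv_injective (mul_left_cancel₀ hκ0 h7)
  · -- img
    apply Subset.antisymm
    · rintro z ⟨w, hw, rfl⟩
      have e1 := hin w hw
      exact (hOm _ (hχne _ e1.1 e1.2)).1 (hballO _ e1.1)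
    · intro z hz
      have hz' : z ∉ KK f := hz
      have hza : z - a ≠ 0 := by
        intro h
        apply hz'
        rw [sub_eq_zero.1 h]
        exact haK
      have h6 : (z - a)⁻¹ ∈ Om f a := by
        rw [hOm _ (inv_ne_zero hza), inv_inv, add_sub_cancel]
        exact hz'
      have h7 := hψne _ h6 (inv_ne_zero hza)
      refine ⟨κ / ψ (z - a)⁻¹, ?_, ?_⟩
      · show 1 < ‖κ / ψ (z - a)⁻¹‖
        rw [norm_div, hκn, one_div]
        exact (one_lt_inv₀ (norm_pos_iff.2 h7)).2 (hψn _ h6)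
      · simp only
        rw [inv_div, mul_div_cancel₀ _ hκ0, (hmψ _ h6).2, inv_inv, add_sub_cancel]
  · -- conj
    intro w hw
    have e1 := hin w hw
    have e2 := hballO _ e1.1
    have e3 := hχne _ e1.1 e1.2
    have h6 := hfhinv _ e2 e3
    have h7 := hfun _ e1.1
    rw [← hd]
    have h8 : lam * (κ * w⁻¹) ^ d = κ * (w ^ d)⁻¹ := by
      rw [mul_pow, ← mul_assoc, hlk, inv_pow]
    rw [h8] at h7
    rw [← h7, h6]
    ring
  · -- inf
    refine ⟨(κ * a1 0)⁻¹, inv_ne_zero (mul_ne_zero hκ0 (ha1ne 0 h0b)), ?_⟩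
    have h6 : (a * 0 + (κ * a1 (κ * 0))⁻¹) = (κ * a1 0)⁻¹ := by
      rw [mul_zero, mul_zero, zero_add]
    rw [h6] at hcont1
    refine hcont1.congr' ?_
    have h7 : ∀ᶠ w : ℂ in Bornology.cobounded ℂ, 1 < ‖w‖ := by
      have := tendsto_norm_cobounded_atTop (E := ℂ)
      exact this.eventually (eventually_gt_atTop 1)
    filter_upwards [h7] with w hw
    have hw0 : w ≠ 0 := by
      intro h
      rw [h, norm_zero] at hw
      linarith
    have e1 := hin w hw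
    have e4 := ha1ne _ e1.1
    rw [ha1e (κ * w⁻¹)]
    field_simp
  · -- bdry
    intro ε hε
    obtain ⟨ρ, hρ2, hρ, hρE⟩ := small (Om f a)
      {ζ | ζ ∈ Om f a ∧ (ζ = 0 ∨ ∀ x ∈ JJ f, ε ≤ dist (a + ζ⁻¹) x)} ψ
      hψ.continuousOn hψn (hOb.subset (fun z hz => hz.1)) (by
        intro ζ hζ
        by_contra hcon
        obtain ⟨z, hz, hzl⟩ := mem_closure_iff_seq_limit.1 hζ
        have hζ0 : ζ ≠ 0 := fun h => hcon (h ▸ h0)
        have hx : a + ζ⁻¹ ∈ KK f := by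
          by_contra h'
          exact hcon ((hOm ζ hζ0).2 h')
        have hne : ∀ᶠ n in atTop, z n ≠ 0 := hzl.eventually_ne hζ0
        have h6 : Tendsto (fun n => a + (z n)⁻¹) atTop (𝓝 (a + ζ⁻¹)) :=
          tendsto_const_nhds.add (hzl.inv₀ hζ0)
        have hxJ : a + ζ⁻¹ ∈ JJ f := by
          unfold JJ
          rw [frontier_eq_closure_inter_closure]
          refine ⟨subset_closure hx, ?_⟩
          refine mem_closure_of_tendsto h6 ?_
          filter_upwards [hne] with n hn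
          exact (hOm _ hn).1 (hz n).1
        have h7 : ∀ᶠ n in atTop, dist (a + (z n)⁻¹) (a + ζ⁻¹) < ε :=
          (Metric.tendsto_nhds.1 h6) ε hε
        obtain ⟨n, hn1, hn2⟩ := (hne.and h7).exists
        rcases (hz n).2 with h8 | h8
        · exact hn1 h8
        · exact absurd hn2 (not_lt.2 (h8 _ hxJ)))
    refine ⟨ρ⁻¹, (one_lt_inv₀ (by linarith)).2 hρ, fun w hw hw' => ?_⟩
    have e1 := hin w hw
    by_contra hcon
    push Not at hcon
    have h6 := hρE (χ (κ * w⁻¹)) ⟨hballO _ e1.1, Or.inr hcon⟩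
    rw [(hmχ _ e1.1).2, norm_mul, hκn, one_mul, norm_inv] at h6
    have h7 : ρ < ‖w‖⁻¹ := by
      rw [lt_inv_comm₀ (by linarith) (by linarith)]
      exact hw'
    linarith

end Pool.Agent.W589.JQ
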